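import Mathlib
import Pool.Agent.W406.PX.Stmts

/-! PX-GEOM -/

set_option autoImplicit false

namespace Pool.Agent.W683.PX

open Pool.Agent.W406.PX
open Pool.Agent.H96R3.BC (vv)

theorem pw (n : ℕ) (x : ℝ) (h0 : 0 ≤ x) (h1 : x ≤ 1) : (1 + x) ^ n ≤ 1 + (2 ^ n - 1) * x := by
  induction n with
  | zero => simp
  | succ n ih =>
    have h2 : (1 + x) ^ (n + 1) ≤ (1 + (2 ^ n - 1) * x) * (1 + x) := by
      rw [pow_succ]
      exact mul_le_mul_of_nonneg_right ih (by linarith)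
    have h3 : (1 : ℝ) ≤ 2 ^ n := one_le_pow₀ (by norm_num)
    have h4 : x * x ≤ x := by nlinarith
    rw [pow_succ (2 : ℝ)]
    nlinarith

theorem bern (n : ℕ) (x : ℝ) (h0 : 0 ≤ x) : x ^ (n + 1) + (n + 1) * x ^ n ≤ (x + 1) ^ (n + 1) := by
  induction n with
  | zero => simp
  | succ n ih =>
    have h2 := mul_le_mul_of_nonneg_right ih (by linarith : 0 ≤ x + 1)
    rw [← pow_succ] at h2
    refine le_trans ?_ h2
    push_cast
    have h5 : 0 ≤ x ^ n := pow_nonneg h0 n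
    rw [pow_succ x (n + 1), pow_succ x n]
    nlinarith [mul_nonneg (by positivity : (0 : ℝ) ≤ (n : ℝ) + 1) h5]

theorem task : TaskGeom := by
  refine ⟨1, fun q hq Q hQ m hm => ⟨2 ^ (2 * q) * (m + 1), ?_, 2 ^ (2 * q) + m + 2, ?_⟩⟩
  · have h3 : (1 : ℝ) ≤ 2 ^ (2 * q) := one_le_pow₀ (by norm_num)
    have h4 : (1 : ℝ) ≤ (m : ℝ) + 1 := by
      have : (0 : ℝ) ≤ m := Nat.cast_nonneg m
      linarith
    nlinarith
  intro j₁ j' hj' hjj b hb
  have hqQ : q ≤ Q := by rcases hQ with h | h <;> omega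
  have hq0 : 2 * q ≠ 0 := by omega
  have hj'1 : 1 ≤ j' := le_trans (Nat.succ_le_of_lt (Nat.succ_pos _)) hj'
  have hle : j' ≤ j₁ := by
    have h1 : j' ^ (2 * q) ≤ j₁ ^ (2 * q) := by
      rw [← hjj]
      exact Nat.pow_le_pow_right hj'1 (by omega)
    exact (Nat.pow_le_pow_iff_left hq0).mp h1
  set X : ℝ := (j' : ℝ) ^ (2 * Q) with hXdef
  have hX : X = (j₁ : ℝ) ^ (2 * q) := by
    rw [hXdef]; exact_mod_cast hjj
  have hj₁pos : (0 : ℝ) < j₁ := by
    have : 0 < j₁ := by omega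
    exact_mod_cast this
  have hXpos : 0 < X := by rw [hX]; positivity
  have hQ0 : (0 : ℝ) < Q := by
    have : 0 < Q := by omega
    exact_mod_cast this
  set e : ℝ := 1 / (4 * (Q : ℝ)) with he
  have hepos : 0 < e := by rw [he]; positivity
  have hQ1 : (1 : ℝ) ≤ Q := by
    have : 1 ≤ Q := by omega
    exact_mod_cast this
  have he1 : e ≤ 1 := by
    rw [he, div_le_one (by positivity)]
    linarith
  have hvv : ∀ n : ℕ, vv Q j' n = ((n : ℝ) / X) ^ e := fun n => rfl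
  have hvv0 : ∀ n : ℕ, 0 ≤ vv Q j' n := by
    intro n
    rw [hvv]
    exact Real.rpow_nonneg (by positivity) _
  have hvp : ∀ n : ℕ, (vv Q j' n) ^ (4 * Q) = (n : ℝ) / X := by
    intro n
    have h1 : e = (((4 * Q : ℕ) : ℝ))⁻¹ := by
      rw [he, one_div]; push_cast; rfl
    rw [hvv, h1]
    exact Real.rpow_inv_natCast_pow (by positivity) (by omega)
  -- real forms of the boundary conditions
  have hb1 : ∀ j, j₁ ≤ j → (j : ℝ) ^ (2 * q) ≤ b j := by
    intro j hj
    exact_mod_cast (hb j hj).1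
  have hb2 : ∀ j, j₁ ≤ j → 8 * (b j : ℝ) ≤ 7 * (j : ℝ) ^ (2 * q) + ((j : ℝ) + 1) ^ (2 * q) := by
    intro j hj
    exact_mod_cast (hb j hj).2
  have hb3 : ∀ j, j₁ ≤ j → (b j : ℝ) ≤ ((j : ℝ) + 1) ^ (2 * q) := by
    intro j hj
    have h1 := hb2 j hj
    have h2 : (j : ℝ) ^ (2 * q) ≤ ((j : ℝ) + 1) ^ (2 * q) :=
      pow_le_pow_left₀ (Nat.cast_nonneg j) (by linarith) _
    linarith
  have h2q : (1 : ℝ) ≤ 2 ^ (2 * q) := one_le_pow₀ (by norm_num)
  have hm0 : (0 : ℝ) ≤ m := Nat.cast_nonneg m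
  refine ⟨hle, ⟨?_, ?_⟩, ?_⟩
  · rw [hvv]
    apply Real.one_le_rpow _ hepos.le
    rw [one_le_div hXpos, hX]
    exact hb1 j₁ le_rfl
  · have h1 : (b j₁ : ℝ) / X ≤ 1 + (2 ^ (2 * q) - 1) * (1 / j₁) := by
      have h2 := hb2 j₁ le_rfl
      have hx1 : (1 : ℝ) / j₁ ≤ 1 := by
        rw [div_le_one hj₁pos]
        have : 1 ≤ j₁ := by omega
        exact_mod_cast this
      have h3 := pw (2 * q) (1 / j₁) (by positivity) hx1
      have h4 : ((j₁ : ℝ) + 1) ^ (2 * q) = X * (1 + 1 / j₁) ^ (2 * q) := by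
        rw [hX, ← mul_pow]
        congr 1
        field_simp
      rw [h4, ← hX] at h2
      rw [div_le_iff₀ hXpos]
      have h5 := mul_le_mul_of_nonneg_left h3 hXpos.le
      have h6 : 0 ≤ X * ((2 ^ (2 * q) - 1) * (1 / (j₁ : ℝ))) := by
        apply mul_nonneg hXpos.le
        apply mul_nonneg (by linarith)
        positivity
      nlinarith
    have h2 : (1 : ℝ) ≤ (b j₁ : ℝ) / X := by
      rw [one_le_div hXpos, hX]
      exact hb1 j₁ le_rfl
    rw [hvv]
    have h3 : ((b j₁ : ℝ) / X) ^ e ≤ (b j₁ : ℝ) / X := by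
      have := Real.rpow_le_rpow_of_exponent_le h2 he1
      rwa [Real.rpow_one] at this
    refine h3.trans (h1.trans ?_)
    have h4 : (2 ^ (2 * q) - 1 : ℝ) * (1 / j₁) ≤ 2 ^ (2 * q) * (m + 1) / j₁ := by
      rw [mul_one_div]
      apply div_le_div_of_nonneg_right _ hj₁pos.le
      nlinarith
    linarith
  intro j hj
  have hjpos : (0 : ℝ) < j := by
    have : 0 < j := by omega
    exact_mod_cast this
  have hjJ : 2 ^ (2 * q) + m + 2 ≤ j := by omega
  have hjJ' : (2 : ℝ) ^ (2 * q) + m + 2 ≤ j := by exact_mod_cast hjJ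
  have hlt : (j : ℝ) ^ (2 * q) < ((j : ℝ) + 1) ^ (2 * q) :=
    pow_lt_pow_left₀ (by linarith) hjpos.le hq0
  have hbj1 : ((j : ℝ) + 1) ^ (2 * q) ≤ b (j + 1) := by
    have := hb1 (j + 1) (by omega)
    push_cast at this
    exact this
  have hblt : (b j : ℝ) < b (j + 1) := by
    have := hb2 j hj
    linarith
  set r : ℝ := 1 + (m + 1) / j with hr
  have hr1 : 1 ≤ r := by
    rw [hr]
    have : (0 : ℝ) ≤ (m + 1) / j := by positivity
    linarith
  have hmj : ((m : ℝ) + 1) / j ≤ 1 := by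
    rw [div_le_one hjpos]
    linarith
  have hr2 : r ≤ 2 := by rw [hr]; linarith
  have hrj : ((j : ℝ) + m + 1) ^ (2 * q) = r ^ (2 * q) * (j : ℝ) ^ (2 * q) := by
    rw [← mul_pow]
    congr 1
    rw [hr]
    field_simp
    ring
  have hbm : (b (j + m) : ℝ) ≤ ((j : ℝ) + m + 1) ^ (2 * q) := by
    have := hb3 (j + m) (by omega)
    push_cast at this
    exact this
  have hvm : vv Q j' (b (j + m)) ≤ r * vv Q j' (b j) := by
    rw [hvv, hvv]
    have h1 : (b (j + m) : ℝ) / X ≤ r ^ (2 * q) * ((b j : ℝ) / X) := by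
      rw [← mul_div_assoc]
      apply div_le_div_of_nonneg_right _ hXpos.le
      refine hbm.trans ?_
      rw [hrj]
      exact mul_le_mul_of_nonneg_left (hb1 j hj) (by positivity)
    have h2 := Real.rpow_le_rpow (by positivity) h1 hepos.le
    rw [Real.mul_rpow (by positivity) (by positivity)] at h2
    refine h2.trans ?_
    apply mul_le_mul_of_nonneg_right _ (Real.rpow_nonneg (by positivity) _)
    have h3 : (r ^ (2 * q)) ^ e = r ^ (((2 * q : ℕ) : ℝ) * e) := by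
      rw [← Real.rpow_natCast, ← Real.rpow_mul (by linarith)]
    rw [h3]
    have h4 : ((2 * q : ℕ) : ℝ) * e ≤ 1 := by
      rw [he, mul_one_div, div_le_one (by positivity)]
      push_cast
      have : (q : ℝ) ≤ Q := by exact_mod_cast hqQ
      linarith
    have := Real.rpow_le_rpow_of_exponent_le hr1 h4
    rwa [Real.rpow_one] at this
  have hv0 := hvv0 (b j)
  have h2j : (1 : ℝ) ≤ 2 * j / j₁ := by
    rw [one_le_div hj₁pos]
    have : (j₁ : ℝ) ≤ j := by exact_mod_cast hj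
    linarith
  have hbX : (b j : ℝ) / X ≤ (2 * j / j₁) ^ (2 * q) := by
    rw [div_pow, ← hX]
    apply div_le_div_of_nonneg_right _ hXpos.le
    refine (hb3 j hj).trans ?_
    exact pow_le_pow_left₀ (by linarith) (by linarith) _
  refine ⟨by exact_mod_cast hblt, ?_, ?_, ?_, ?_, ?_, ?_, ?_, ?_⟩
  · rw [hvv, hvv]
    apply Real.rpow_lt_rpow (by positivity) _ hepos
    exact div_lt_div_of_pos_right hblt hXpos
  · have h1 : vv Q j' (b (j + m)) - vv Q j' (b j) ≤ ((m + 1) / j) * vv Q j' (b j) := by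
      rw [hr] at hvm
      linarith
    refine h1.trans ?_
    have h2 : ((m : ℝ) + 1) / j * vv Q j' (b j) = 1 * (m + 1) * vv Q j' (b j) / j := by
      field_simp
    rw [h2]
    apply div_le_div_of_nonneg_right _ hjpos.le
    apply mul_le_mul_of_nonneg_right _ hv0
    exact mul_le_mul_of_nonneg_right h2q (by linarith)
  · refine hvm.trans ?_
    exact mul_le_mul_of_nonneg_right hr2 hv0
  · have h1 : (vv Q j' (b j) ^ 2) ^ (2 * Q) ≤ (2 * (j : ℝ) / j₁) ^ (2 * Q) := by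
      rw [← pow_mul, show 2 * (2 * Q) = 4 * Q by ring, hvp]
      refine hbX.trans ?_
      exact pow_le_pow_right₀ h2j (by omega)
    exact le_of_pow_le_pow_left₀ (by omega) (by linarith) h1
  · have h1 : (vv Q j' (b j) ^ (2 * Q)) ^ 2 ≤ ((2 * (j : ℝ) / j₁) ^ q) ^ 2 := by
      rw [← pow_mul, ← pow_mul, show 2 * Q * 2 = 4 * Q by ring, hvp, mul_comm q 2]
      exact hbX
    exact le_of_pow_le_pow_left₀ (by norm_num) (by positivity) h1
  · have h1 : (b (j + m) : ℝ) - b j ≤ (r ^ (2 * q) - 1) * (j : ℝ) ^ (2 * q) := by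
      have := hb1 j hj
      rw [hrj] at hbm
      linarith
    refine h1.trans ?_
    have h3 := pw (2 * q) ((m + 1) / j) (by positivity) hmj
    have h4 : (r ^ (2 * q) - 1) ≤ (2 ^ (2 * q)) * ((m + 1) / j) := by
      have h5 : (0 : ℝ) ≤ (m + 1) / j := by positivity
      change (1 + ((m : ℝ) + 1) / j) ^ (2 * q) - 1 ≤ _
      nlinarith
    have h5 := mul_le_mul_of_nonneg_right h4 (pow_nonneg hjpos.le (2 * q))
    refine h5.trans_eq ?_
    have h6 : (j : ℝ) ^ (2 * q) = j * (j : ℝ) ^ (2 * q - 1) := by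
      rw [← pow_succ']
      congr 1
      omega
    rw [h6]
    field_simp
  · have h1 := hb2 j hj
    obtain ⟨n, hn⟩ : ∃ n, 2 * q = n + 1 := ⟨2 * q - 1, by omega⟩
    have h2 := bern n j hjpos.le
    rw [← hn] at h2
    have h3 : 2 * q - 1 = n := by omega
    rw [h3]
    have h4 : (1 : ℝ) ≤ n := by
      have : 1 ≤ n := by omega
      exact_mod_cast this
    have h5 : 0 ≤ (j : ℝ) ^ n := by positivity
    nlinarith
  · have h1 : (b (j + 1) : ℝ) ≤ ((j : ℝ) + 2) ^ (2 * q) := by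
      have := hb3 (j + 1) (by omega)
      push_cast at this
      rw [show (j : ℝ) + 1 + 1 = j + 2 by ring] at this
      exact this
    refine h1.trans ?_
    have h2 : ((j : ℝ) + 2) ^ (2 * q) ≤ (2 * j) ^ (2 * q) :=
      pow_le_pow_left₀ (by linarith) (by linarith) _
    refine h2.trans ?_
    rw [mul_pow, pow_succ, mul_comm]
    exact mul_le_mul_of_nonneg_left (by linarith) (by positivity)

end Pool.Agent.W683.PX
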